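import Pool.Agent.Lib.MP_305fdd_al.F8.D7.Dom
import Pool.Agent.Lib.MP_305fdd_al.F8.EG.Leg

/-!
# MP_305fdd_al, `d = 7`, block E7: arithmetic of `O7`
-/

set_option autoImplicit false

namespace Pool.Agent.F8.D7

open Pool.Agent.MP_305fdd_al Pool.Agent.Lib.MP_305fdd_al Pool.Agent.F2X Pool.Agent.F8
  Pool.Agent.F8.HN Pool.Agent.F8.AB
open scoped QuadraticAlgebra

theorem n7_add (u v : O7) : 12 * n7 (u - v) ≤ 21 * n7 u + 28 * n7 v := by
  have h := n7_nonneg (3 * u + 4 * v)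
  have e : n7 (3 * u + 4 * v) = 21 * n7 u + 28 * n7 v - 12 * n7 (u - v) := by
    have e3 : (3 * u + 4 * v : O7) = ⟨3 * u.re + 4 * v.re, 3 * u.im + 4 * v.im⟩ := by
      apply QuadraticAlgebra.ext
      · simp
      · simp
    rw [e3]
    unfold n7
    simp only [QuadraticAlgebra.re_sub, QuadraticAlgebra.im_sub]
    ring
  linarith

/-- the conjugate -/
def cj7 (z : O7) : O7 := ⟨z.re - z.im, -z.im⟩

theorem mul_cj7 (z : O7) : z * cj7 z = ((n7 z : ℤ) : O7) := by
  apply QuadraticAlgebra.ext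
  · rw [QuadraticAlgebra.re_mul, QuadraticAlgebra.re_intCast, Int.cast_id]
    unfold cj7 n7
    ring
  · rw [QuadraticAlgebra.im_mul, QuadraticAlgebra.im_intCast]
    unfold cj7
    ring

theorem n7_cj7 (z : O7) : n7 (cj7 z) = n7 z := by
  unfold cj7 n7
  ring

theorem hex7 (n s t : ℤ) (hs : t ≤ s) (ht : 0 ≤ t) (hn : s ≤ n) (hn0 : 0 < n) :
    ∃ e f : ℤ, 7 * ((s - n * e) * (s - n * e) - (s - n * e) * (t - n * f) +
      2 * ((t - n * f) * (t - n * f))) ≤ 4 * (n * n) := by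
  by_contra hcon
  push Not at hcon
  have h0 := hcon 0 0
  have h1 := hcon 1 0
  have h2 := hcon 1 1
  have k0 := mul_le_mul_of_nonneg_left h0.le (show 0 ≤ n - s by linarith)
  have k1 := mul_le_mul_of_nonneg_left h1.le (show 0 ≤ s - t by linarith)
  have k2 := mul_le_mul_of_nonneg_left h2.le ht
  have strict : n * (4 * (n * n)) <
      (n - s) * (7 * ((s - n * 0) * (s - n * 0) - (s - n * 0) * (t - n * 0) +
        2 * ((t - n * 0) * (t - n * 0)))) +
      (s - t) * (7 * ((s - n * 1) * (s - n * 1) - (s - n * 1) * (t - n * 0) +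
        2 * ((t - n * 0) * (t - n * 0)))) +
      t * (7 * ((s - n * 1) * (s - n * 1) - (s - n * 1) * (t - n * 1) +
        2 * ((t - n * 1) * (t - n * 1)))) := by
    rcases lt_or_ge s n with h | h
    · have := mul_lt_mul_of_pos_left h0 (show 0 < n - s by linarith)
      nlinarith
    · rcases lt_or_ge t s with h' | h'
      · have := mul_lt_mul_of_pos_left h1 (show 0 < s - t by linarith)
        nlinarith
      · have := mul_lt_mul_of_pos_left h2 (show 0 < t by linarith)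
        nlinarith
  have id : (n - s) * (7 * ((s - n * 0) * (s - n * 0) - (s - n * 0) * (t - n * 0) +
        2 * ((t - n * 0) * (t - n * 0)))) +
      (s - t) * (7 * ((s - n * 1) * (s - n * 1) - (s - n * 1) * (t - n * 0) +
        2 * ((t - n * 0) * (t - n * 0)))) +
      t * (7 * ((s - n * 1) * (s - n * 1) - (s - n * 1) * (t - n * 1) +
        2 * ((t - n * 1) * (t - n * 1)))) =
      7 * n * ((n - s) * (s - t) + 2 * ((n - s) * t) + 2 * ((s - t) * t)) := by
    ring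
  rw [id] at strict
  have fin : 7 * ((n - s) * (s - t) + 2 * ((n - s) * t) + 2 * ((s - t) * t)) ≤ 4 * (n * n) := by
    nlinarith [sq_nonneg (3 * (n - t) - 4 * t), sq_nonneg ((n - s) - (s - t))]
  nlinarith

theorem hex7' (n A B : ℤ) (hn0 : 0 < n) :
    ∃ e f : ℤ, 7 * ((A - n * e) * (A - n * e) - (A - n * e) * (B - n * f) +
      2 * ((B - n * f) * (B - n * f))) ≤ 4 * (n * n) := by
  have a1 := Int.emod_nonneg A hn0.ne'
  have a2 := Int.emod_lt_of_pos A hn0
  have a3 := Int.emod_add_mul_ediv A n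
  have b1 := Int.emod_nonneg B hn0.ne'
  have b2 := Int.emod_lt_of_pos B hn0
  have b3 := Int.emod_add_mul_ediv B n
  rcases le_total (B % n) (A % n) with h | h
  · obtain ⟨e, f, hef⟩ := hex7 n (A % n) (B % n) h b1 a2.le hn0
    refine ⟨A / n + e, B / n + f, ?_⟩
    have e1 : A - n * (A / n + e) = A % n - n * e := by linarith
    have e2 : B - n * (B / n + f) = B % n - n * f := by linarith
    rw [e1, e2]; exact hef
  · -- the other triangle: the conjugation by a half turn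
    obtain ⟨e, f, hef⟩ := hex7 n (n - A % n) (n - B % n) (by linarith) (by linarith)
      (by linarith) hn0
    refine ⟨A / n + 1 - e, B / n + 1 - f, ?_⟩
    have e1 : A - n * (A / n + 1 - e) = -(n - A % n - n * e) := by linarith
    have e2 : B - n * (B / n + 1 - f) = -(n - B % n - n * f) := by linarith
    rw [e1, e2]
    have e3 : ∀ x y : ℤ, (-x) * (-x) - (-x) * (-y) + 2 * ((-y) * (-y)) = x * x - x * y + 2 * (y * y) := by
      intro x y; ring
    rw [e3]; exact hef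

/-- the norm as a natural number -/
def N7 (z : O7) : ℕ := (n7 z).natAbs

theorem N7_cast (z : O7) : (N7 z : ℤ) = n7 z := by
  unfold N7
  exact Int.natAbs_of_nonneg (n7_nonneg z)

theorem N7_mul (x y : O7) : N7 (x * y) = N7 x * N7 y := by
  unfold N7
  rw [n7_mul, Int.natAbs_mul]

theorem N7_zero {x : O7} (h : N7 x = 0) : x = 0 := by
  apply n7_eq_zero
  rw [← N7_cast, h]; rfl

theorem N7_unit {x : O7} (h : N7 x = 1) : IsUnit x := by
  refine IsUnit.of_mul_eq_one (cj7 x) ?_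
  rw [mul_cj7, ← N7_cast, h]
  rfl

/-- division with a small remainder -/
theorem small7 (a b : O7) (hb : b ≠ 0) : ∃ q : O7, 7 * n7 (a - b * q) ≤ 4 * n7 b := by
  have hn : 0 < n7 b := lt_of_le_of_ne (n7_nonneg b) fun h => hb (n7_eq_zero h.symm)
  obtain ⟨e, f, hef⟩ := hex7' (n7 b) (a * cj7 b).re (a * cj7 b).im hn
  refine ⟨⟨e, f⟩, ?_⟩
  have h1 : (a - b * ⟨e, f⟩) * cj7 b = ⟨(a * cj7 b).re - n7 b * e, (a * cj7 b).im - n7 b * f⟩ := by
    have h2 : (a - b * ⟨e, f⟩) * cj7 b = a * cj7 b - (b * cj7 b) * ⟨e, f⟩ := by ring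
    rw [h2, mul_cj7]
    apply QuadraticAlgebra.ext
    · simp
    · simp
  have h3 : n7 (a - b * ⟨e, f⟩) * n7 b = n7 ((a - b * ⟨e, f⟩) * cj7 b) := by
    rw [n7_mul, n7_cj7]
  have h4 : (7 * n7 (a - b * ⟨e, f⟩)) * n7 b ≤ (4 * n7 b) * n7 b := by
    rw [mul_assoc, h3, h1]
    unfold n7 at hef ⊢
    linarith
  exact le_of_mul_le_mul_right h4 hn

instance : IsPrincipalIdealRing O7 where
  principal I := by
    classical
    by_cases hI : I = ⊥
    · exact ⟨0, by rw [hI]; simp⟩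
    · obtain ⟨x, hxI, hx0⟩ := Submodule.exists_mem_ne_zero_of_ne_bot hI
      have hex : ∃ n : ℕ, ∃ x ∈ I, x ≠ 0 ∧ N7 x = n := ⟨N7 x, x, hxI, hx0, rfl⟩
      obtain ⟨b, hbI, hb0, hbn⟩ := Nat.find_spec hex
      have hmin := fun m (hm : m < Nat.find hex) => Nat.find_min hex hm
      rw [← hbn] at hmin
      refine ⟨b, le_antisymm (fun a haI => ?_) ?_⟩
      · obtain ⟨q, hq⟩ := small7 a b hb0
        have hr : a - b * q ∈ I := I.sub_mem haI (I.mul_mem_right q hbI)
        have hn : 0 < N7 b := Nat.pos_of_ne_zero fun h => hb0 (N7_zero h)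
        rw [← N7_cast, ← N7_cast] at hq
        have h0 : a - b * q = 0 := by
          by_contra h
          exact hmin (N7 (a - b * q)) (by omega) ⟨_, hr, h, rfl⟩
        rw [sub_eq_zero] at h0
        rw [h0]
        exact Ideal.mem_span_singleton.mpr (Dvd.intro q rfl)
      · rw [Submodule.span_singleton_le_iff_mem]; exact hbI

instance : CharZero O7 where
  cast_injective m n h := by
    have := congrArg QuadraticAlgebra.re h
    simpa using this

/-- the norm -/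
def nm7 : EG.Nm O7 where
  N := N7
  mul := N7_mul
  zero _ h := N7_zero h
  unit _ h := N7_unit h

/-- the descent step -/
theorem desc7 (a b r : O7) (hb : b ≠ 0) (h6 : 6 ≤ N7 b) (hab : N7 a ≤ N7 b) :
    ∃ q : O7, N7 ((r - b * q) ^ 2 - a) < N7 b ^ 2 := by
  obtain ⟨q, hq⟩ := small7 r b hb
  refine ⟨q, ?_⟩
  have h1 := n7_add ((r - b * q) ^ 2) a
  rw [pow_two, n7_mul] at h1
  have h2 : 0 ≤ n7 (r - b * q) := n7_nonneg _
  zify
  rw [pow_two (r - b * q), N7_cast, N7_cast]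
  have h6' : 6 ≤ n7 b := by rw [← N7_cast]; exact_mod_cast h6
  have hab' : n7 a ≤ n7 b := by rw [← N7_cast, ← N7_cast]; exact_mod_cast hab
  generalize n7 (r - b * q) = x at *
  generalize n7 b = n at *
  generalize n7 a = y at *
  generalize n7 ((r - b * q) * (r - b * q) - a) = w at *
  have h3 : 49 * (x * x) ≤ 16 * (n * n) := by nlinarith
  nlinarith

theorem dvd_n7 (x : O7) (hx : x ≠ 0) : ∃ n : ℕ, 0 < n ∧ x ∣ (n : O7) :=
  ⟨N7 x, Nat.pos_of_ne_zero fun h => hx (N7_zero h), cj7 x, by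
    rw [mul_cj7, ← N7_cast]; rfl⟩

/-! ### The prime `δ` -/

theorem dl_dvd {x : O7} : dl ℤ ∣ x ↔ Even x.re := by
  constructor
  · rintro ⟨y, rfl⟩
    rw [QuadraticAlgebra.re_mul]
    simp only [dl]
    exact ⟨-y.im, by ring⟩
  · rintro ⟨k, hk⟩
    refine ⟨⟨x.im - k, -k⟩, ?_⟩
    apply QuadraticAlgebra.ext
    · rw [QuadraticAlgebra.re_mul, hk]
      simp only [dl]; ring
    · rw [QuadraticAlgebra.im_mul]
      simp only [dl]; ring

theorem dl_prime : Prime (dl ℤ) := by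
  refine ⟨?_, ?_, ?_⟩
  · intro h
    have := congrArg QuadraticAlgebra.im h
    simp [dl] at this
  · intro h
    have h1 : dl ℤ ∣ 1 := h.dvd
    rw [dl_dvd] at h1
    simp at h1
  · intro a b h
    rw [dl_dvd, QuadraticAlgebra.re_mul] at h
    rw [dl_dvd, dl_dvd]
    have h1 : Even (a.re * b.re) := by
      have h2 : a.re * b.re = (a.re * b.re + -2 * a.im * b.im) + 2 * (a.im * b.im) := by ring
      rw [h2]
      exact h.add (even_two_mul _)
    exact Int.even_mul.1 h1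

/-- reduction modulo `δ⁴` -/
def ps7 : O7 →+* ZMod 16 := ev7 (Int.castRingHom (ZMod 16)) 10 (by decide)

theorem ps7_apply (x : O7) : ps7 x = (x.re : ZMod 16) + (x.im : ZMod 16) * 10 := rfl

theorem ps7_dl : ps7 (dl ℤ) = 10 := by
  rw [ps7_apply]; simp [dl]

theorem ps7_even (x : O7) (h : 8 * ps7 x = 0) : dl ℤ ∣ x := by
  rw [dl_dvd]
  rw [ps7_apply] at h
  have h1 : ((8 * x.re : ℤ) : ZMod 16) = 0 := by
    push_cast
    have h2 : (8 : ZMod 16) * ((x.re : ZMod 16) + (x.im : ZMod 16) * 10) =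
        8 * (x.re : ZMod 16) + (x.im : ZMod 16) * 80 := by ring
    have h3 : (80 : ZMod 16) = 0 := by decide
    rw [h2, h3, mul_zero, add_zero] at h
    exact h
  rw [ZMod.intCast_zmod_eq_zero_iff_dvd] at h1
  obtain ⟨k, hk⟩ := h1
  exact ⟨k, by push_cast at hk; omega⟩

/-- the squares modulo `16` -/
def sq16 : Finset (ZMod 16) := {0, 1, 4, 9}

theorem sq16_mem : ∀ x : ZMod 16, x ^ 2 ∈ sq16 ∧ ((x ^ 2 = 0 ∨ x ^ 2 = 4) → 8 * x = 0) := by
  decide

/-- the equation has no primitive solution modulo `16` -/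
def Q16 (a b : ZMod 16) : Prop := ∀ s ∈ sq16, ∀ t ∈ sq16, ∀ r ∈ sq16, a * s + b * t - r = 0 →
  (s = 0 ∨ s = 4) ∧ (t = 0 ∨ t = 4) ∧ (r = 0 ∨ r = 4)

instance (a b : ZMod 16) : Decidable (Q16 a b) := by unfold Q16; infer_instance

theorem insol7 (a b : O7) (h : Q16 (ps7 a) (ps7 b)) : ¬ EG.LA a b := by
  intro hL
  obtain ⟨x, y, z, h1, h2⟩ := (hL (dl ℤ) dl_prime).prim dl_prime 4
  apply h2
  obtain ⟨w, hw⟩ := h1
  have e1 : ps7 a * ps7 x ^ 2 + ps7 b * ps7 y ^ 2 - ps7 z ^ 2 = 0 := by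
    rw [← map_pow, ← map_pow, ← map_pow, ← map_mul, ← map_mul, ← map_add, ← map_sub, hw, map_mul,
      map_pow, ps7_dl]
    have : (10 : ZMod 16) ^ 4 = 0 := by decide
    rw [this, zero_mul]
  obtain ⟨k1, k2, k3⟩ := h _ (sq16_mem _).1 _ (sq16_mem _).1 _ (sq16_mem _).1 e1
  exact ⟨ps7_even _ ((sq16_mem _).2 k1), ps7_even _ ((sq16_mem _).2 k2),
    ps7_even _ ((sq16_mem _).2 k3)⟩

end Pool.Agent.F8.D7
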