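import Pool.Agent.Lib.MP_305fdd_al.F8.D7.E.Base
import Pool.Agent.Lib.MP_305fdd_al.F8.D7.Stm
import Pool.Agent.Lib.MP_305fdd_al.F8.EG.Tw

/-!
# MP_305fdd_al, `d = 7`: block E7
-/

set_option autoImplicit false

namespace Pool.Agent.F8.D7

open Pool.Agent.MP_305fdd_al Pool.Agent.Lib.MP_305fdd_al Pool.Agent.F2X Pool.Agent.F8
  Pool.Agent.F8.HN Pool.Agent.F8.AB
open scoped QuadraticAlgebra

theorem sg_fixE {z : Z7} (h : sg ℤ z = z) : z = c7 z.re := by
  have h1 := congrArg QuadraticAlgebra.im h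
  have h2 : -z.im = z.im := h1
  have h3 : z.im = 0 := by
    have h4 : 2 * z.im = 0 := by linear_combination -h2
    exact (mul_eq_zero.1 h4).resolve_left two_ne_zero
  apply QuadraticAlgebra.ext
  · rfl
  · rw [h3]; rfl

theorem sg_antifix {z : Z7} (h : sg ℤ z = -z) : z = ss ℤ * c7 z.im := by
  have h1 := congrArg QuadraticAlgebra.re h
  have h2 : z.re = -z.re := h1
  have h3 : z.re = 0 := by
    have h4 : 2 * z.re = 0 := by linear_combination h2
    exact (mul_eq_zero.1 h4).resolve_left two_ne_zero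
  apply QuadraticAlgebra.ext
  · rw [h3, QuadraticAlgebra.re_mul]
    simp [ss]
  · rw [QuadraticAlgebra.im_mul]
    simp [ss]

theorem E7m_surj (m : ℕ) : Function.Surjective (E7m (Int.castRingHom (ZMod m))) := by
  intro z
  obtain ⟨a, ha⟩ := ZMod.intCast_surjective z.re
  obtain ⟨b, hb⟩ := ZMod.intCast_surjective z.im
  refine ⟨⟨a, b⟩, ?_⟩
  rw [E7m_apply]
  apply QuadraticAlgebra.ext
  · exact ha
  · exact hb

theorem E7m_ker (m : ℕ) (z : O7) (h : E7m (Int.castRingHom (ZMod m)) z = 0) : (m : O7) ∣ z := by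
  rw [E7m_apply] at h
  have h1 : (z.re : ZMod m) = 0 := congrArg QuadraticAlgebra.re h
  have h2 : (z.im : ZMod m) = 0 := congrArg QuadraticAlgebra.im h
  rw [ZMod.intCast_zmod_eq_zero_iff_dvd] at h1 h2
  obtain ⟨a, ha⟩ := h1
  obtain ⟨b, hb⟩ := h2
  refine ⟨⟨a, b⟩, ?_⟩
  apply QuadraticAlgebra.ext
  · rw [QuadraticAlgebra.re_mul, ha]; simp
  · rw [QuadraticAlgebra.im_mul, hb]; simp

/-- BLOCK E7 -/
theorem p_E7 : S_E7 := by
  intro Λ _ Om _ _ _ J hJ s T hT χ h0 h1 hχ hirr hloc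
  have hc7 : Function.Injective c7 := fun x y h => congrArg QuadraticAlgebra.re h
  have hjc : Function.Injective (J.comp c7) := hJ.comp hc7
  -- the subgroup of the elements of type 0
  have hk : ∀ l, l ∈ χ.ker ↔ χ l = 1 := fun l => MonoidHom.mem_ker
  have e0 : ∀ l, χ l = 1 → T l = c7 (T l).re := fun l hl => sg_fixE (h0 l hl)
  have e1 : ∀ l, χ l ≠ 1 → T l = ss ℤ * c7 (T l).im := fun l hl => sg_antifix (h1 l hl)
  obtain ⟨ρ0, hρ0⟩ := EG.E_gen leg7 dvd_n7 (J.comp c7) hjc (s.comp χ.ker.subtype)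
    (fun l : χ.ker => (T l).re) (fun l => by
      show tr (s l) = J (c7 (T l).re)
      rw [← e0 l ((hk l).1 l.2), hT]) hirr (by
      intro m hm
      obtain ⟨r, hr⟩ := hloc m hm
      refine ⟨E7 (ZMod m), inferInstance, E7m (Int.castRingHom (ZMod m)), E7m_surj m, E7m_ker m, r,
        fun l => ?_⟩
      obtain ⟨t, ht, hrt⟩ := hr l
      rw [hrt]
      show _ = E7m (Int.castRingHom (ZMod m)) (T l).re
      rw [ht]
      rfl)
  have hσ : ss ℤ * ss ℤ = c7 (dl ℤ) := by rw [← pow_two, ss_sq]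
  have hσ0 : J (ss ℤ) ≠ 0 := by
    intro h
    have h2 : ss ℤ = 0 := hJ (by rw [h, map_zero])
    have h3 := congrArg (fun z : Z7 => z.im.re) h2
    simp [ss] at h3
  classical
  obtain ⟨u, hu⟩ : ∃ u : Λ → Om, ∀ l, u l = if χ l = 1 then 1 else J (ss ℤ) := ⟨_, fun l => rfl⟩
  have hz : ∀ x y : Multiplicative (ZMod 2), x ≠ 1 → y ≠ 1 → x * y = 1 := by decide
  obtain ⟨B, B', M, hB, hM, m1, m2⟩ := EG.tw_gen dl_prime (J.comp c7) hjc s χ χ.ker hχ u
    (fun g hg => by rw [hu, if_pos ((hk g).1 hg)])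
    (fun l l' => if χ l = 1 ∨ χ l' = 1 then 1 else dl ℤ)
    (fun l l' => by
      rw [hu, hu, hu, map_mul]
      by_cases k1 : χ l = 1
      · rw [if_pos k1, if_pos (Or.inl k1), k1, one_mul, map_one, one_mul, one_mul]
      · by_cases k2 : χ l' = 1
        · rw [if_pos k2, if_pos (Or.inr k2), k2, mul_one, mul_one, map_one, one_mul]
        · rw [if_neg k1, if_neg k2, if_neg (by tauto), hz _ _ k1 k2, if_pos rfl, mul_one,
            ← map_mul, hσ]
          rfl)
    (fun l l' h => by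
      show IsUnit (if χ l = 1 ∨ χ l' = 1 then (1 : O7) else dl ℤ)
      rw [if_pos h]; exact isUnit_one)
    (fun l => if χ l = 1 then 1 else dl ℤ)
    (fun l => by
      rw [hu]
      by_cases k : χ l = 1
      · rw [if_pos k, if_pos k, one_pow, map_one]
      · rw [if_neg k, if_neg k, ← map_pow, ss_sq]
        rfl)
    (fun l h => by
      show Associated (if χ l = 1 then (1 : O7) else dl ℤ) _
      rw [if_neg h])
    (fun l g hg => by
      have hg' := (hk g).1 hg
      rw [hT, hu]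
      by_cases k : χ l = 1
      · refine ⟨(T (l * g)).re, ?_, fun h => absurd k h⟩
        rw [if_pos k, one_mul]
        conv_lhs => rw [e0 (l * g) (by rw [map_mul, k, hg', one_mul])]
        rfl
      · refine ⟨dl ℤ * (T (l * g)).im, ?_, fun _ => dvd_mul_right _ _⟩
        rw [if_neg k]
        conv_lhs => rw [e1 (l * g) (by rw [map_mul, hg', mul_one]; exact k), ← map_mul,
          ← mul_assoc, hσ, ← map_mul]
        rfl)
    ρ0 (fun g => by
      rw [hρ0]
      show tr (s g) = J (c7 (T g).re)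
      rw [← e0 g ((hk g).1 g.2), hT]) hirr
  obtain ⟨ρ, r1, r2, r3⟩ := EG.tw_out c7 J hJ s χ (ss ℤ) (ss_sq ℤ) hσ0 u
    (fun l => by
      rw [hu]
      split_ifs
      · exact one_ne_zero
      · exact hσ0) (fun _ => 1)
    (fun l k => by rw [hu, if_pos k, map_one, one_mul])
    (fun l k => by rw [hu, if_neg k, map_one, one_mul]) B B' M hB hM m1 m2
  have sc : ∀ a : O7, sg ℤ (c7 a) = c7 a := by
    intro a
    rw [sg_apply]
    apply QuadraticAlgebra.ext
    · rfl
    · show -(0 : O7) = 0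
      rw [neg_zero]
  have es : ∀ a : O7, sg ℤ (ss ℤ * c7 a) = -(ss ℤ * c7 a) := by
    intro a
    rw [map_mul, sg_ss, sc, neg_mul]
  refine ⟨ρ, fun l => hJ (by rw [r1, hT]), fun l hl => ?_, fun l hl => ?_⟩
  · obtain ⟨a, b, c, d, h⟩ := r2 l hl
    rw [one_smul] at h
    rw [tw_apply]
    conv_rhs => rw [eq_mx (ρ l)]
    apply mx_congr
    · rw [h]; exact sc a
    · rw [h]
      show -sg ℤ (ss ℤ * c7 b) = ss ℤ * c7 b
      rw [es, neg_neg]
    · rw [h]
      show -sg ℤ (ss ℤ * c7 c) = ss ℤ * c7 c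
      rw [es, neg_neg]
    · rw [h]; exact sc d
  · obtain ⟨a, b, c, d, h⟩ := r3 l hl
    rw [one_smul] at h
    rw [tw_apply]
    conv_rhs => rw [eq_mx (ρ l), mx_neg]
    apply mx_congr
    · rw [h]; exact es a
    · rw [h]
      show -sg ℤ (c7 b) = -c7 b
      rw [sc]
    · rw [h]
      show -sg ℤ (c7 c) = -c7 c
      rw [sc]
    · rw [h]; exact es d

end Pool.Agent.F8.D7
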