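import Pool.Agent.Lib.MP_305fdd_al.F8.D7.E.Ar

/-!
# MP_305fdd_al, `d = 7`, block E7: Legendre's theorem over `O7`, the base cases
-/

set_option autoImplicit false

namespace Pool.Agent.F8.D7

open Pool.Agent.MP_305fdd_al Pool.Agent.Lib.MP_305fdd_al Pool.Agent.F2X Pool.Agent.F8
  Pool.Agent.F8.HN Pool.Agent.F8.AB
open scoped QuadraticAlgebra

theorem not_unit7 {x : O7} (hx : n7 x = 2) : ¬ IsUnit x := by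
  intro h
  obtain ⟨w, hw⟩ := h.dvd (a := (1 : O7))
  have h1 := congrArg n7 hw
  rw [n7_mul, hx] at h1
  have h2 : n7 1 = 1 := by decide
  rw [h2] at h1
  omega

/-- the squarefree elements of norm less than six -/
theorem cls7 (a : O7) (h6 : N7 a < 6) (h0 : a ≠ 0) (hS : EG.Sf a) :
    a = ⟨1, 0⟩ ∨ a = ⟨-1, 0⟩ ∨ a = ⟨0, 1⟩ ∨ a = ⟨0, -1⟩ ∨ a = ⟨-1, -1⟩ ∨ a = ⟨1, 1⟩ ∨
      a = ⟨2, 0⟩ ∨ a = ⟨-2, 0⟩ := by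
  obtain ⟨x, y⟩ := a
  have h1 : x * x - x * y + 2 * (y * y) < 6 := by
    have : (N7 ⟨x, y⟩ : ℤ) < 6 := by exact_mod_cast h6
    rw [N7_cast] at this
    exact this
  have y1 : y ≤ 1 := by nlinarith [sq_nonneg (2 * x - y)]
  have y2 : -1 ≤ y := by nlinarith [sq_nonneg (2 * x - y)]
  have x1 : x ≤ 2 := by nlinarith [sq_nonneg (x - 4 * y), sq_nonneg y]
  have x2 : -2 ≤ x := by nlinarith [sq_nonneg (x - 4 * y), sq_nonneg y]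
  have s1 : ∀ c : O7, n7 c = 2 → ¬ c ^ 2 ∣ (⟨x, y⟩ : O7) := fun c hc hd => not_unit7 hc (hS c hd)
  interval_cases x <;> interval_cases y
  · exact absurd ⟨⟨1, 0⟩, by decide⟩ (s1 ⟨0, 1⟩ (by decide))
  · exact Or.inr (Or.inr (Or.inr (Or.inr (Or.inr (Or.inr (Or.inr rfl))))))
  · norm_num at h1
  · exact Or.inr (Or.inr (Or.inr (Or.inr (Or.inl rfl))))
  · exact Or.inr (Or.inl rfl)
  · exact absurd ⟨⟨1, 0⟩, by decide⟩ (s1 ⟨1, 1⟩ (by decide))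
  · exact Or.inr (Or.inr (Or.inr (Or.inl rfl)))
  · exact absurd rfl h0
  · exact Or.inr (Or.inr (Or.inl rfl))
  · exact absurd ⟨⟨-1, 0⟩, by decide⟩ (s1 ⟨1, 1⟩ (by decide))
  · exact Or.inl rfl
  · exact Or.inr (Or.inr (Or.inr (Or.inr (Or.inr (Or.inl rfl)))))
  · norm_num at h1
  · exact Or.inr (Or.inr (Or.inr (Or.inr (Or.inr (Or.inr (Or.inl rfl))))))
  · exact absurd ⟨⟨-1, 0⟩, by decide⟩ (s1 ⟨0, 1⟩ (by decide))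

theorem base7 (a b : O7) (ha0 : a ≠ 0) (hb0 : b ≠ 0) (ha : N7 a < 6) (hb : N7 b < 6) (hSa : EG.Sf a)
    (hSb : EG.Sf b) (hL : EG.LA a b) : EG.Sol a b := by
  rcases cls7 a ha ha0 hSa with rfl | rfl | rfl | rfl | rfl | rfl | rfl | rfl <;>
    rcases cls7 b hb hb0 hSb with rfl | rfl | rfl | rfl | rfl | rfl | rfl | rfl
  · exact ⟨⟨0, 0⟩, ⟨0, 1⟩, ⟨0, -1⟩, by decide, by decide⟩
  · exact ⟨⟨0, 1⟩, ⟨0, 1⟩, ⟨0, 0⟩, by decide, by decide⟩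
  · exact ⟨⟨0, 1⟩, ⟨0, 0⟩, ⟨0, -1⟩, by decide, by decide⟩
  · exact ⟨⟨0, 1⟩, ⟨0, 0⟩, ⟨0, -1⟩, by decide, by decide⟩
  · exact ⟨⟨0, 1⟩, ⟨0, 0⟩, ⟨0, -1⟩, by decide, by decide⟩
  · exact ⟨⟨0, 1⟩, ⟨0, 0⟩, ⟨0, -1⟩, by decide, by decide⟩
  · exact ⟨⟨0, 1⟩, ⟨0, 0⟩, ⟨0, -1⟩, by decide, by decide⟩
  · exact ⟨⟨0, 1⟩, ⟨0, 0⟩, ⟨0, -1⟩, by decide, by decide⟩
  · exact ⟨⟨0, 1⟩, ⟨0, 1⟩, ⟨0, 0⟩, by decide, by decide⟩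
  · exact absurd hL (insol7 _ _ (by decide))
  · exact ⟨⟨0, 1⟩, ⟨0, 1⟩, ⟨-2, 0⟩, by decide, by decide⟩
  · exact absurd hL (insol7 _ _ (by decide))
  · exact ⟨⟨0, 1⟩, ⟨1, 0⟩, ⟨-1, 0⟩, by decide, by decide⟩
  · exact absurd hL (insol7 _ _ (by decide))
  · exact ⟨⟨0, 1⟩, ⟨0, 1⟩, ⟨0, -1⟩, by decide, by decide⟩
  · exact absurd hL (insol7 _ _ (by decide))
  · exact ⟨⟨0, 0⟩, ⟨0, 1⟩, ⟨0, -1⟩, by decide, by decide⟩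
  · exact ⟨⟨0, 1⟩, ⟨0, 1⟩, ⟨-2, 0⟩, by decide, by decide⟩
  · exact ⟨⟨1, 0⟩, ⟨1, 1⟩, ⟨0, -1⟩, by decide, by decide⟩
  · exact ⟨⟨0, 1⟩, ⟨0, 1⟩, ⟨0, 0⟩, by decide, by decide⟩
  · exact absurd hL (insol7 _ _ (by decide))
  · exact absurd hL (insol7 _ _ (by decide))
  · exact absurd hL (insol7 _ _ (by decide))
  · exact absurd hL (insol7 _ _ (by decide))
  · exact ⟨⟨0, 0⟩, ⟨0, 1⟩, ⟨0, -1⟩, by decide, by decide⟩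
  · exact absurd hL (insol7 _ _ (by decide))
  · exact ⟨⟨0, 1⟩, ⟨0, 1⟩, ⟨0, 0⟩, by decide, by decide⟩
  · exact absurd hL (insol7 _ _ (by decide))
  · exact absurd hL (insol7 _ _ (by decide))
  · exact ⟨⟨0, 1⟩, ⟨0, 1⟩, ⟨0, -1⟩, by decide, by decide⟩
  · exact absurd hL (insol7 _ _ (by decide))
  · exact ⟨⟨1, 0⟩, ⟨1, 0⟩, ⟨0, -1⟩, by decide, by decide⟩
  · exact ⟨⟨0, 0⟩, ⟨0, 1⟩, ⟨0, -1⟩, by decide, by decide⟩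
  · exact ⟨⟨1, 0⟩, ⟨0, 1⟩, ⟨-1, 0⟩, by decide, by decide⟩
  · exact absurd hL (insol7 _ _ (by decide))
  · exact absurd hL (insol7 _ _ (by decide))
  · exact ⟨⟨0, 1⟩, ⟨1, 0⟩, ⟨-1, -1⟩, by decide, by decide⟩
  · exact ⟨⟨0, 1⟩, ⟨0, 1⟩, ⟨0, 0⟩, by decide, by decide⟩
  · exact absurd hL (insol7 _ _ (by decide))
  · exact absurd hL (insol7 _ _ (by decide))
  · exact ⟨⟨0, 0⟩, ⟨0, 1⟩, ⟨0, -1⟩, by decide, by decide⟩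
  · exact absurd hL (insol7 _ _ (by decide))
  · exact absurd hL (insol7 _ _ (by decide))
  · exact ⟨⟨0, 1⟩, ⟨0, 1⟩, ⟨0, -1⟩, by decide, by decide⟩
  · exact ⟨⟨0, 1⟩, ⟨0, 1⟩, ⟨0, 0⟩, by decide, by decide⟩
  · exact absurd hL (insol7 _ _ (by decide))
  · exact absurd hL (insol7 _ _ (by decide))
  · exact ⟨⟨0, 1⟩, ⟨0, 1⟩, ⟨-2, 0⟩, by decide, by decide⟩
  · exact ⟨⟨0, 0⟩, ⟨0, 1⟩, ⟨0, -1⟩, by decide, by decide⟩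
  · exact ⟨⟨0, 1⟩, ⟨0, 1⟩, ⟨0, -1⟩, by decide, by decide⟩
  · exact absurd hL (insol7 _ _ (by decide))
  · exact absurd hL (insol7 _ _ (by decide))
  · exact absurd hL (insol7 _ _ (by decide))
  · exact absurd hL (insol7 _ _ (by decide))
  · exact ⟨⟨0, 1⟩, ⟨0, 1⟩, ⟨0, -2⟩, by decide, by decide⟩
  · exact ⟨⟨0, 1⟩, ⟨0, 1⟩, ⟨0, 0⟩, by decide, by decide⟩
  · exact ⟨⟨0, 0⟩, ⟨0, 1⟩, ⟨0, -1⟩, by decide, by decide⟩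
  · exact absurd hL (insol7 _ _ (by decide))
  · exact absurd hL (insol7 _ _ (by decide))
  · exact ⟨⟨1, 0⟩, ⟨1, 0⟩, ⟨0, -1⟩, by decide, by decide⟩
  · exact absurd hL (insol7 _ _ (by decide))
  · exact ⟨⟨0, 1⟩, ⟨0, 1⟩, ⟨-2, 0⟩, by decide, by decide⟩
  · exact ⟨⟨0, 1⟩, ⟨0, 1⟩, ⟨0, 0⟩, by decide, by decide⟩
  · exact absurd hL (insol7 _ _ (by decide))

/-- Legendre's theorem over `O7` -/
theorem leg7 : ∀ a b : O7, a ≠ 0 → b ≠ 0 → EG.LA a b → EG.Sol a b :=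
  EG.legendre nm7 6 desc7 base7

end Pool.Agent.F8.D7
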